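import Mathlib

/-!
# The final choice of the parameters (squares clause)
-/

set_option autoImplicit false

namespace Pool.Agent.Helper98.SQ

open Real

theorem params (C : ℕ) : ∃ c : ℝ, 0 < c ∧ ∀ (x : ℝ) (N M : ℕ) (R : ℝ), 2 ≤ x → 1 ≤ N → N ≤ M →
    ((M : ℝ) - 1) ^ 2 < x → x ≤ (M : ℝ) ^ 2 →
    (∀ r K : ℕ, 32 * M ≤ K * N → (C * K * r) ^ (6 * r) ≤ M →
      (2 : ℝ) ^ r * (N : ℝ) ^ 2 ≤ 4 * (M : ℝ) ^ 2 * R) →
    c * ((N : ℝ) ^ 2 / x) * exp (c * log x / log (8 * sqrt x * log (2 + x) / N)) ≤ R := by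
  set B : ℝ := log (33 * ((C : ℝ) + 1)) + 1 with hB
  have hC0 : (0 : ℝ) ≤ C := Nat.cast_nonneg C
  have hB1 : 1 ≤ B := by
    have : 0 ≤ log (33 * ((C : ℝ) + 1)) := log_nonneg (by linarith)
    linarith
  have hBpos : 0 < B := by linarith
  set A : ℝ := 12 * B with hA
  have hA1 : 12 ≤ A := by linarith
  have hApos : 0 < A := by linarith
  refine ⟨1 / (48 * A), by positivity, ?_⟩
  intro x N M R hx hN hNM hM1 hM2 H
  have hx0 : 0 < x := by linarith
  have hNr : (1 : ℝ) ≤ N := by exact_mod_cast hN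
  have hNpos : (0 : ℝ) < N := by linarith
  have hNMr : (N : ℝ) ≤ M := by exact_mod_cast hNM
  have hMr : (1 : ℝ) ≤ M := by linarith
  have hMpos : (0 : ℝ) < M := by linarith
  -- sqrt
  have hs1 : 1 ≤ sqrt x := by
    rw [show (1 : ℝ) = sqrt 1 by simp]
    exact sqrt_le_sqrt (by linarith)
  have hspos : 0 < sqrt x := by linarith
  have hMs : (M : ℝ) ≤ 2 * sqrt x := by
    have h1 : (M : ℝ) - 1 ≤ sqrt x := le_sqrt_of_sq_le hM1.le
    linarith
  have hM4 : (M : ℝ) ^ 2 ≤ 4 * x := by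
    have h2 : (M : ℝ) ^ 2 ≤ (2 * sqrt x) ^ 2 := pow_le_pow_left₀ hMpos.le hMs 2
    rw [mul_pow, sq_sqrt hx0.le] at h2
    linarith
  -- log x
  set y : ℝ := log x with hy
  have hy0 : 0 ≤ y := log_nonneg (by linarith)
  have hyM : y ≤ 2 * log M := by
    have := log_le_log hx0 hM2
    rw [log_pow] at this
    exact_mod_cast this
  have hl1 : 1 ≤ log (2 + x) := by
    have h4 : (4 : ℝ) ≤ 2 + x := by linarith
    have h5 : log 4 ≤ log (2 + x) := log_le_log (by norm_num) h4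
    have h6 : log 4 = 2 * log 2 := by
      rw [show (4 : ℝ) = 2 ^ 2 by norm_num, log_pow]
      norm_num
    have := log_two_gt_d9
    linarith
  have hyl : y ≤ log (2 + x) := log_le_log hx0 (by linarith)
  set Z : ℝ := 8 * sqrt x * log (2 + x) / N with hZ
  have hZ4 : 4 ≤ Z := by
    rw [hZ, le_div_iff₀ hNpos]
    calc (4 : ℝ) * N ≤ 4 * (2 * sqrt x) * 1 := by nlinarith
      _ ≤ 8 * sqrt x * log (2 + x) := by nlinarith
  set L : ℝ := log Z with hL
  have hL1 : 1 ≤ L := by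
    have h5 : log 4 ≤ log Z := log_le_log (by norm_num) hZ4
    have h6 : log 4 = 2 * log 2 := by
      rw [show (4 : ℝ) = 2 ^ 2 by norm_num, log_pow]
      norm_num
    have := log_two_gt_d9
    linarith
  have hLpos : 0 < L := by linarith
  -- K and r
  set K : ℕ := ⌈32 * (M : ℝ) / N⌉₊ with hK
  have hK1 : 32 * M ≤ K * N := by
    have h1 : 32 * (M : ℝ) / N ≤ K := Nat.le_ceil _
    rw [div_le_iff₀ hNpos] at h1
    exact_mod_cast h1
  have hMN : 1 ≤ (M : ℝ) / N := by
    rw [le_div_iff₀ hNpos]; linarith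
  have hK2 : (K : ℝ) ≤ 33 * ((M : ℝ) / N) := by
    have h1 : (K : ℝ) < 32 * (M : ℝ) / N + 1 := Nat.ceil_lt_add_one (by positivity)
    have h2 : 32 * (M : ℝ) / N = 32 * ((M : ℝ) / N) := by ring
    linarith
  have hKpos : (0 : ℝ) < K := by
    have h1 : 32 * (M : ℝ) / N ≤ K := Nat.le_ceil _
    have h2 : (0 : ℝ) < 32 * (M : ℝ) / N := by positivity
    linarith
  set r : ℕ := ⌊y / (A * L)⌋₊ with hr
  have hr1 : (r : ℝ) ≤ y / (A * L) := Nat.floor_le (by positivity)
  have hr2 : y / (A * L) < r + 1 := Nat.lt_floor_add_one _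
  have hcond : (C * K * r) ^ (6 * r) ≤ M := by
    rcases Nat.eq_zero_or_pos r with h0 | hpos
    · rw [h0]
      simp
      omega
    have hrr : (1 : ℝ) ≤ r := by exact_mod_cast hpos
    have hry : (r : ℝ) ≤ y := by
      refine hr1.trans ?_
      rw [div_le_iff₀ (by positivity)]
      have : 1 ≤ A * L := by nlinarith
      nlinarith
    have hy1 : 1 ≤ y := by linarith
    have hbase : ((C : ℝ) + 1) * K * r ≤ (33 * ((C : ℝ) + 1)) * Z := by
      have h1 : ((C : ℝ) + 1) * K * r ≤ ((C : ℝ) + 1) * (33 * ((M : ℝ) / N)) * y := by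
        gcongr
      have h2 : (M : ℝ) / N * y ≤ Z := by
        rw [hZ, div_mul_eq_mul_div]
        gcongr
        nlinarith
      calc ((C : ℝ) + 1) * K * r ≤ ((C : ℝ) + 1) * (33 * ((M : ℝ) / N)) * y := h1
        _ = (33 * ((C : ℝ) + 1)) * ((M : ℝ) / N * y) := by ring
        _ ≤ (33 * ((C : ℝ) + 1)) * Z := by gcongr
    have hlog : log (((C : ℝ) + 1) * K * r) ≤ B * L := by
      have h1 : log (((C : ℝ) + 1) * K * r) ≤ log ((33 * ((C : ℝ) + 1)) * Z) :=
        log_le_log (by positivity) hbase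
      have h1' : log ((33 * ((C : ℝ) + 1)) * Z) = log (33 * ((C : ℝ) + 1)) + log Z :=
        log_mul (by positivity) (by positivity)
      rw [h1'] at h1
      have h2 : log (33 * ((C : ℝ) + 1)) + L ≤ B * L := by
        have : 0 ≤ log (33 * ((C : ℝ) + 1)) := by linarith
        rw [hB]
        nlinarith
      linarith
    have hfin : (((C : ℝ) + 1) * K * r) ^ (6 * r) ≤ M := by
      have hp : 0 < ((C : ℝ) + 1) * K * r := by positivity
      rw [← log_le_log_iff (by positivity) hMpos, log_pow]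
      push_cast
      have h3 : 6 * (r : ℝ) * log (((C : ℝ) + 1) * K * r) ≤ 6 * (y / (A * L)) * (B * L) := by
        have hBL : 0 ≤ B * L := by positivity
        have hr6 : (0 : ℝ) ≤ 6 * r := by positivity
        calc 6 * (r : ℝ) * log (((C : ℝ) + 1) * K * r) ≤ 6 * (r : ℝ) * (B * L) :=
              mul_le_mul_of_nonneg_left hlog hr6
          _ ≤ 6 * (y / (A * L)) * (B * L) :=
              mul_le_mul_of_nonneg_right (by linarith) hBL
      have h4 : 6 * (y / (A * L)) * (B * L) = y / 2 := by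
        rw [hA]
        field_simp
        ring
      linarith
    have hle : ((C : ℝ) * K * r) ^ (6 * r) ≤ (((C : ℝ) + 1) * K * r) ^ (6 * r) := by
      gcongr
      linarith
    exact_mod_cast hle.trans hfin
  have hmain := H r K hK1 hcond
  -- lower bound of 2 ^ r
  have h2r : exp (log 2 * (y / (A * L))) / 2 ≤ (2 : ℝ) ^ r := by
    have h1 : (2 : ℝ) ^ r = exp (log 2 * r) := by
      rw [mul_comm, exp_nat_mul, exp_log (by norm_num)]
    have h2 : exp (log 2 * (y / (A * L))) ≤ exp (log 2 * (r + 1)) := by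
      apply exp_le_exp.mpr
      have := log_two_gt_d9
      nlinarith
    have h3 : exp (log 2 * ((r : ℝ) + 1)) = exp (log 2 * r) * 2 := by
      rw [mul_add, mul_one, exp_add, exp_log (by norm_num)]
    rw [h1]
    linarith
  have hexp : exp (1 / (48 * A) * y / L) ≤ exp (log 2 * (y / (A * L))) := by
    apply exp_le_exp.mpr
    have h1 : 1 / (48 * A) * y / L = 1 / 48 * (y / (A * L)) := by
      field_simp
    rw [h1]
    have := log_two_gt_d9
    have h0 : 0 ≤ y / (A * L) := by positivity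
    nlinarith
  have hR : (2 : ℝ) ^ r * ((N : ℝ) ^ 2 / (16 * x)) ≤ R := by
    have h1 : (2 : ℝ) ^ r * (N : ℝ) ^ 2 / (4 * (M : ℝ) ^ 2) ≤ R := by
      rw [div_le_iff₀ (by positivity)]
      linarith
    have h2 : (2 : ℝ) ^ r * ((N : ℝ) ^ 2 / (16 * x)) ≤ (2 : ℝ) ^ r * (N : ℝ) ^ 2 / (4 * (M : ℝ) ^ 2) := by
      rw [mul_div_assoc]
      refine mul_le_mul_of_nonneg_left ?_ (by positivity)
      refine div_le_div_of_nonneg_left (by positivity) (by positivity) ?_
      linarith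
    exact h2.trans h1
  have hE0 : 0 < exp (1 / (48 * A) * y / L) := exp_pos _
  have hq : 0 ≤ (N : ℝ) ^ 2 / x := by positivity
  have hc : 1 / (48 * A) ≤ 1 / 32 := by
    apply one_div_le_one_div_of_le (by norm_num)
    linarith
  calc 1 / (48 * A) * ((N : ℝ) ^ 2 / x) * exp (1 / (48 * A) * y / L)
      ≤ 1 / 32 * ((N : ℝ) ^ 2 / x) * exp (log 2 * (y / (A * L))) := by
        gcongr
    _ = exp (log 2 * (y / (A * L))) / 2 * ((N : ℝ) ^ 2 / (16 * x)) := by
        field_simp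
        ring
    _ ≤ (2 : ℝ) ^ r * ((N : ℝ) ^ 2 / (16 * x)) := by
        gcongr
    _ ≤ R := hR

end Pool.Agent.Helper98.SQ
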